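import Pool.Agent.Y95.Q.K3

/-!
# Discriminants of Hodge classes on cubic fourfolds: basic facts
-/

set_option autoImplicit false

namespace Pool.Agent.Helper36K9.CF

open Pool.Agent.Y95.Q Pool.Agent.Y95.Q.H4

variable {X : CubicFourfold} {H : H4 X}

/-- there is a saturated class of discriminant `d` -/
def InDiv (H : H4 X) (d : ℤ) : Prop := ∃ v, H.IsHodge v ∧ H.Saturated v ∧ H.disc v = d

/-- the bilinear form of the quadratic form `disc` -/
def bb (H : H4 X) (u v : Fin 23 → ℤ) : ℤ := 3 * H.ip u v - H.ip H.h u * H.ip H.h v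

theorem bb_self (v : Fin 23 → ℤ) : bb H v v = H.disc v := by
  unfold bb disc; ring

theorem bb_comm (hH : H.IsCohomology) (u v : Fin 23 → ℤ) : bb H u v = bb H v u := by
  unfold bb; rw [hH.comm u v]; ring

theorem bb_add_left (u v w : Fin 23 → ℤ) : bb H (u + v) w = bb H u w + bb H v w := by
  simp only [bb, ip_add_left, ip_add_right]; ring

theorem bb_add_right (u v w : Fin 23 → ℤ) : bb H w (u + v) = bb H w u + bb H w v := by
  simp only [bb, ip_add_right]; ring

theorem bb_smul_left (n : ℤ) (u w : Fin 23 → ℤ) : bb H (n • u) w = n * bb H u w := by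
  simp only [bb, ip_smul_left, ip_smul_right]; ring

theorem bb_smul_right (n : ℤ) (u w : Fin 23 → ℤ) : bb H w (n • u) = n * bb H w u := by
  simp only [bb, ip_smul_right]; ring

theorem bb_zero_left (w : Fin 23 → ℤ) : bb H 0 w = 0 := by
  simp only [bb, ip_zero_left, ip_zero_right]; ring

theorem bb_zero_right (w : Fin 23 → ℤ) : bb H w 0 = 0 := by
  simp only [bb, ip_zero_right]; ring

theorem bb_h (hH : H.IsCohomology) (w : Fin 23 → ℤ) : bb H H.h w = 0 := by
  simp only [bb, hH.h_self]; ring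

theorem disc_add (hH : H.IsCohomology) (u v : Fin 23 → ℤ) :
    H.disc (u + v) = H.disc u + H.disc v + 2 * bb H u v := by
  rw [← bb_self, ← bb_self, ← bb_self, bb_add_left, bb_add_right, bb_add_right, bb_comm hH v u]
  ring

theorem disc_smul (n : ℤ) (u : Fin 23 → ℤ) : H.disc (n • u) = n ^ 2 * H.disc u := by
  rw [← bb_self, ← bb_self, bb_smul_left, bb_smul_right]; ring

theorem even_disc (hH : H.IsCohomology) (v : Fin 23 → ℤ) : Even (H.disc v) := by
  have h1 := hH.char v
  rw [hH.comm v H.h] at h1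
  have h3 : H.disc v = 2 * H.ip v v + (H.ip v v - H.ip H.h v) +
      (H.ip H.h v - H.ip H.h v ^ 2) := by
    simp only [disc]; ring
  rw [h3]
  refine Even.add (Even.add (even_two_mul _) h1) ?_
  have h4 : H.ip H.h v - H.ip H.h v ^ 2 = -(H.ip H.h v * (H.ip H.h v - 1)) := by ring
  rw [h4]
  exact (Int.even_mul_pred_self _).neg

theorem disc_nonneg (hH : H.IsCohomology) {v : Fin 23 → ℤ} (hv : H.IsHodge v) :
    0 ≤ H.disc v := by
  have h1 := hH.nonneg (H.isHodge_sub (H.isHodge_smul 3 hv) (H.isHodge_smul (H.ip H.h v)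
    hH.h_hodge))
  simp only [ip_sub_left, ip_sub_right, ip_smul_left, ip_smul_right, hH.h_self,
    hH.comm v H.h] at h1
  have h2 : 3 * (3 * H.ip v v) - H.ip H.h v * (3 * H.ip H.h v) -
      (3 * (H.ip H.h v * H.ip H.h v) - H.ip H.h v * (H.ip H.h v * 3)) = 3 * H.disc v := by
    simp only [disc]; ring
  have h3 : 0 ≤ 3 * H.disc v := by
    rw [← h2]
    linarith
  linarith

theorem inDiv_of (hH : H.IsCohomology) {v : Fin 23 → ℤ} (hv : H.IsHodge v) {d : ℤ}
    (hd : H.disc v = d) (hc : d = 14 ∨ d = 26 ∨ d = 38 ∨ d = 42) : InDiv H d := by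
  obtain ⟨w, m, l, hm, hsat, hw⟩ := hH.exists_saturated v (by omega)
  have hwH : H.IsHodge w := by
    refine H.isHodge_of_smul hm.ne' ?_
    have h1 : m • w = v - l • H.h := by
      rw [hw]
      abel
    rw [h1]
    exact H.isHodge_sub hv (H.isHodge_smul _ hH.h_hodge)
  have hmw : m ^ 2 * H.disc w = d := by
    rw [← hd, hw, hH.disc_comb]
  have hw0 : 0 < H.disc w := by
    by_contra hcon
    push Not at hcon
    have : m ^ 2 * H.disc w ≤ 0 := mul_nonpos_of_nonneg_of_nonpos (by positivity) hcon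
    omega
  have h6 := hH.six_lt hwH hw0
  have hm3 : m < 3 := by
    by_contra hcon
    push Not at hcon
    have h9 : 9 ≤ m ^ 2 := by nlinarith
    have hd42 : d ≤ 42 := by omega
    have h7 : 7 ≤ H.disc w := by omega
    have h63 : 9 * 7 ≤ m ^ 2 * H.disc w := by
      apply Int.mul_le_mul h9 h7 (by norm_num) (by positivity)
    omega
  have hm1 : m = 1 := by
    have h2 : m = 1 ∨ m = 2 := by omega
    rcases h2 with h2 | h2
    · exact h2
    · exfalso
      rw [h2] at hmw
      omega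
  rw [hm1] at hmw
  exact ⟨w, hwH, hsat, by linarith⟩

theorem admissible_of {d : ℤ} (hc : d = 14 ∨ d = 26 ∨ d = 38 ∨ d = 42) : Admissible d := by
  refine ⟨by omega, by omega, by omega, ?_⟩
  intro p hp hp2 hd
  have hple : p ≤ 42 := by
    have := Int.le_of_dvd (by omega) hd
    omega
  have key : ∀ n : ℕ, n ≤ 42 → n ≠ 2 → n.Prime → (n ∣ 14 ∨ n ∣ 26 ∨ n ∣ 38 ∨ n ∣ 42) →
      n % 3 ≠ 2 := by
    intro n hn
    interval_cases n <;> norm_num
  apply key p hple hp2 hp
  rcases hc with h | h | h | h <;> rw [h] at hd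
  · left; exact_mod_cast hd
  · right; left; exact_mod_cast hd
  · right; right; left; exact_mod_cast hd
  · right; right; right; exact_mod_cast hd

theorem hasK3_of {d : ℤ} (h : InDiv H d) (hc : d = 14 ∨ d = 26 ∨ d = 38 ∨ d = 42) :
    H.HasK3 := by
  obtain ⟨v, hv, hs, rfl⟩ := h
  exact ⟨v, hv, hs, admissible_of hc⟩

end Pool.Agent.Helper36K9.CF
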