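import Pool.Agent.Helper36K9.CF.Base

/-!
# Cubic fourfolds with a plane and a class of small discriminant
-/

set_option autoImplicit false

namespace Pool.Agent.Helper36K9.CF

open Pool.Agent.Y95.Q Pool.Agent.Y95.Q.H4

variable {X : CubicFourfold} {H : H4 X}

/-- reduction of a class modulo a class `P` with `disc P = 8` and `h.P = 1` -/
theorem reduce (hH : H.IsCohomology) {P v : Fin 23 → ℤ} (hP : H.IsPl P) (hv : H.IsHodge v)
    (h4 : ¬ 4 ∣ H.disc v) (he : Even (bb H P v)) (hb : 8 * H.disc v - bb H P v ^ 2 < 384) :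
    ∃ w, H.IsHodge w ∧
      (H.disc w = 14 ∨ H.disc w = 26 ∨ H.disc w = 38 ∨ H.disc w = 42) := by
  have hhP : H.ip H.h P = 1 := (hH.comm _ _).trans hP.2.1
  have hPd : H.disc P = 8 := by
    rw [disc, hhP, hP.2.2]; norm_num
  obtain ⟨c, hc⟩ := he
  obtain ⟨e, hed⟩ := even_disc hH v
  set b := bb H P v with hbdef
  set k : ℤ := -((b + 4) / 8) with hk
  set v' := v + k • P with hv'
  have hv'H : H.IsHodge v' := H.isHodge_add hv (H.isHodge_smul _ hP.1)
  have hbP : bb H P v' = b + 8 * k := by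
    rw [hv', bb_add_right, bb_smul_right, bb_self, hPd, ← hbdef]; ring
  have hd' : H.disc v' = H.disc v + 8 * k ^ 2 + 2 * (k * b) := by
    rw [hv', disc_add hH, disc_smul, hPd, bb_smul_right, bb_comm hH v P, ← hbdef]; ring
  have hinv : 8 * H.disc v' - (bb H P v') ^ 2 = 8 * H.disc v - b ^ 2 := by
    rw [hbP, hd']; ring
  set b' := bb H P v' with hb'
  have hb'1 : -4 ≤ b' ∧ b' ≤ 3 := by
    rw [hbP, hk]; omega
  have hb'e : b' = -4 ∨ b' = -2 ∨ b' = 0 ∨ b' = 2 := by
    have : b' = 2 * (c + 4 * k) := by rw [hbP, hc]; ring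
    omega
  have hmod4 : H.disc v' % 4 = 2 := by
    have h1 : H.disc v' = 2 * e + 4 * (2 * k ^ 2 + k * c) := by
      rw [hd', hed, hc]; ring
    rw [hed] at h4
    omega
  have hlt : H.disc v' < 50 := by
    have h1 : b' ^ 2 ≤ 16 := by nlinarith [hb'1.1, hb'1.2]
    rw [← hinv] at hb
    omega
  have hpos : 0 < H.disc v' := by
    have := disc_nonneg hH hv'H
    omega
  have h6 := hH.six_lt hv'H hpos
  -- the class modulo `3`
  set y := H.ip H.h v' with hy
  have hb3 : b' = 3 * H.ip P v' - y := by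
    rw [hb', bb, hhP]; ring
  have hq3 : H.disc v' = 3 * H.ip v' v' - y ^ 2 := by
    rw [disc]
  have hy3 : y = 3 * H.ip P v' - b' := by rw [hb3]; ring
  have hq4 : H.disc v' = 3 * (H.ip v' v' - 3 * H.ip P v' ^ 2 + 2 * H.ip P v' * b') - b' ^ 2 := by
    rw [hq3, hy3]; ring
  generalize H.ip v' v' - 3 * H.ip P v' ^ 2 + 2 * H.ip P v' * b' = t at hq4
  rcases hb'e with h | h | h | h
  · refine ⟨v', hv'H, ?_⟩
    rw [h] at hq4
    omega
  · refine ⟨v', hv'H, ?_⟩
    rw [h] at hq4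
    omega
  · rw [h] at hq4
    have h5 : H.disc v' = 18 ∨ H.disc v' = 30 ∨ H.disc v' = 42 := by omega
    rcases h5 with h5 | h5 | h5
    · refine ⟨v' + P, H.isHodge_add hv'H hP.1, ?_⟩
      rw [disc_add hH, hPd, bb_comm hH, ← hb', h, h5]
      norm_num
    · refine ⟨v' + P, H.isHodge_add hv'H hP.1, ?_⟩
      rw [disc_add hH, hPd, bb_comm hH, ← hb', h, h5]
      norm_num
    · exact ⟨v', hv'H, by omega⟩
  · refine ⟨v', hv'H, ?_⟩
    rw [h] at hq4
    omega

/-- one of the four divisors, or an odd product with a plane -/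
def Known (H : H4 X) : Prop :=
  (∃ d : ℤ, (d = 14 ∨ d = 26 ∨ d = 38 ∨ d = 42) ∧ InDiv H d) ∨
    ∃ (P : X.Plane) (T : Fin 23 → ℤ), H.IsHodge T ∧ Odd (H.ip T (H.h - H.cl P))

theorem Known.hasK3 (hH : H.IsCohomology) (h : Known H) : H.HasK3 := by
  rcases h with ⟨d, hd, h⟩ | ⟨P, T, hT, ho⟩
  · exact hasK3_of h hd
  · exact hH.hasK3 ((hH.cl_range _).1 ⟨P, rfl⟩) hT ho

/-- odd products with a plane -/
theorem odd_plane (hH : H.IsCohomology) {P v : Fin 23 → ℤ} (hP : H.IsPl P) (hv : H.IsHodge v)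
    (ho : Odd (bb H P v)) : Known H := by
  have hhP : H.ip H.h P = 1 := (hH.comm _ _).trans hP.2.1
  have h1 : Odd (H.ip v (H.h - P)) := by
    rw [ip_sub_right, hH.comm v H.h, hH.comm v P]
    have h2 : H.ip H.h v - H.ip P v = bb H P v + 2 * (H.ip H.h v - 2 * H.ip P v) := by
      rw [bb, hhP]; ring
    rw [h2]
    exact ho.add_even (even_two_mul _)
  obtain ⟨P', rfl⟩ := (hH.cl_range P).2 hP
  exact Or.inr ⟨P', v, hv, h1⟩

/-- **A plane and a class of small discriminant.** -/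
theorem plane_small (hH : H.IsCohomology)
    {P v : Fin 23 → ℤ} (hP : H.IsPl P) (hv : H.IsHodge v)
    (h4 : ¬ 4 ∣ H.disc v) (hb : 8 * H.disc v - bb H P v ^ 2 < 384) : Known H := by
  rcases Int.even_or_odd (bb H P v) with he | ho
  · obtain ⟨w, hw, hd⟩ := reduce hH hP hv h4 he hb
    have hI := inDiv_of hH hw rfl hd
    exact Or.inl ⟨_, hd, hI⟩
  · exact odd_plane hH hP hv ho

/-- the discriminant of a Hodge class is `0` or `2` modulo `6` -/
theorem disc_mod6 (hH : H.IsCohomology) (v : Fin 23 → ℤ) :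
    H.disc v % 6 = 0 ∨ H.disc v % 6 = 2 := by
  obtain ⟨e, he⟩ := even_disc hH v
  have h1 : H.disc v = 3 * H.ip v v - H.ip H.h v ^ 2 := rfl
  have h2 : H.ip H.h v ^ 2 % 3 = 0 ∨ H.ip H.h v ^ 2 % 3 = 1 := by
    have h3 : H.ip H.h v % 3 = 0 ∨ H.ip H.h v % 3 = 1 ∨ H.ip H.h v % 3 = 2 := by omega
    rcases h3 with h3 | h3 | h3 <;> simp [pow_two, Int.mul_emod, h3]
  generalize H.ip H.h v ^ 2 = s at h1 h2
  omega

/-- bilinear evenness extends to the span -/
theorem span_even (hH : H.IsCohomology) {G : Set (Fin 23 → ℤ)}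
    (hG : ∀ x ∈ G, ∀ y ∈ G, Even (bb H x y)) (h4 : ∀ x ∈ G, 4 ∣ H.disc x)
    {v : Fin 23 → ℤ} (hv : v ∈ Submodule.span ℤ (insert H.h G)) : 4 ∣ H.disc v := by
  have h1 : ∀ x ∈ Submodule.span ℤ (insert H.h G), ∀ y ∈ G, Even (bb H x y) := by
    intro x hx y hy
    induction hx using Submodule.span_induction with
    | mem x hx =>
      rcases hx with rfl | hx
      · rw [bb_h hH]; exact Even.zero
      · exact hG x hx y hy
    | zero => rw [bb_zero_left]; exact Even.zero
    | add a b _ _ ha hb => rw [bb_add_left]; exact ha.add hb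
    | smul n a _ ha => rw [bb_smul_left]; exact ha.mul_left n
  have h2 : ∀ x ∈ Submodule.span ℤ (insert H.h G), ∀ y ∈ Submodule.span ℤ (insert H.h G),
      Even (bb H x y) := by
    intro x hx y hy
    induction hy using Submodule.span_induction with
    | mem y hy =>
      rcases hy with rfl | hy
      · rw [bb_comm hH, bb_h hH]; exact Even.zero
      · exact h1 x hx y hy
    | zero => rw [bb_zero_right]; exact Even.zero
    | add a b _ _ ha hb => rw [bb_add_right]; exact ha.add hb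
    | smul n a _ ha => rw [bb_smul_right]; exact ha.mul_left n
  induction hv using Submodule.span_induction with
  | mem x hx =>
    rcases hx with rfl | hx
    · rw [← bb_self, bb_h hH]; exact dvd_zero _
    · exact h4 x hx
  | zero => rw [← bb_self, bb_zero_left]; exact dvd_zero _
  | add a b ha hb iha ihb =>
    rw [disc_add hH]
    obtain ⟨c, hc⟩ := h2 a ha b hb
    obtain ⟨s, hs⟩ := iha
    obtain ⟨t, ht⟩ := ihb
    exact ⟨s + t + c, by rw [hs, ht, hc]; ring⟩
  | smul n a _ ha => rw [disc_smul]; exact ha.mul_left _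

/-- **A plane, and generators of small discriminant.** -/
theorem plane_gen (hH : H.IsCohomology) {P : Fin 23 → ℤ} (hP : H.IsPl P)
    (hG : ∀ v, H.IsHodge v → v ∈ Submodule.span ℤ
      (insert H.h {w | H.IsHodge w ∧ H.disc w < 32}))
    {v : Fin 23 → ℤ} (hv : H.IsHodge v) (h4 : ¬ 4 ∣ H.disc v) : Known H := by
  by_contra hcon
  have hsm : ∀ w, H.IsHodge w → H.disc w < 48 → 4 ∣ H.disc w := by
    intro w hw hd
    by_contra h
    exact hcon (plane_small hH hP hw h (by nlinarith [sq_nonneg (bb H P w)]))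
  have hval : ∀ w, H.IsHodge w → H.disc w < 32 → H.disc w ≤ 24 := by
    intro w hw hd
    have h1 := hsm w hw (by omega)
    have h2 := disc_mod6 hH w
    omega
  apply h4
  refine span_even hH (G := {w | H.IsHodge w ∧ H.disc w < 32}) ?_ ?_ (hG v hv)
  · rintro x ⟨hx, hxd⟩ y ⟨hy, hyd⟩
    by_contra hodd
    rw [Int.not_even_iff_odd] at hodd
    obtain ⟨c, hc⟩ := hodd
    have hx1 := hval x hx hxd
    have hy1 := hval y hy hyd
    have hx4 := hsm x hx (by omega)
    have hy4 := hsm y hy (by omega)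
    have hp := disc_add hH x y
    have hm := disc_add hH x ((-1 : ℤ) • y)
    rw [disc_smul, bb_smul_right] at hm
    have hp4 : ¬ 4 ∣ H.disc (x + y) := by rw [hp, hc]; omega
    have hm4 : ¬ 4 ∣ H.disc (x + (-1 : ℤ) • y) := by rw [hm, hc]; omega
    have hp48 : ¬ H.disc (x + y) < 48 := fun h =>
      hp4 (hsm _ (H.isHodge_add hx hy) h)
    have hm48 : ¬ H.disc (x + (-1 : ℤ) • y) < 48 := fun h =>
      hm4 (hsm _ (H.isHodge_add hx (H.isHodge_smul _ hy)) h)
    rw [hp] at hp48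
    rw [hm] at hm48
    omega
  · rintro x ⟨hx, hxd⟩
    exact hsm x hx (by omega)

end Pool.Agent.Helper36K9.CF
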