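import Pool.Agent.Helper36K9.CF.Plane

/-!
# Primitive classes with the square `4`
-/

set_option autoImplicit false

namespace Pool.Agent.Helper36K9.CF

open Pool.Agent.Y95.Q Pool.Agent.Y95.Q.H4

variable {X : CubicFourfold} {H : H4 X}

/-- primitive Hodge classes with the square `4` -/
def S4 (H : H4 X) (u : Fin 23 → ℤ) : Prop := H.IsHodge u ∧ H.ip u H.h = 0 ∧ H.ip u u = 4

/-- no primitive Hodge class with the square `14` -/
def No14 (H : H4 X) : Prop := ∀ z, H.IsHodge z → H.ip z H.h = 0 → H.ip z z ≠ 14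

theorem S4.neg {u : Fin 23 → ℤ} (hu : S4 H u) : S4 H (-u) :=
  ⟨H.isHodge_neg hu.1, by rw [ip_neg_left, hu.2.1, neg_zero],
    by rw [ip_neg_left, ip_neg_right, neg_neg, hu.2.2]⟩

/-- the square of a combination of five classes -/
theorem nrm5 (hH : H.IsCohomology) (hN : No14 H) {u v w x y : Fin 23 → ℤ}
    (hu : S4 H u) (hv : S4 H v) (hw : S4 H w) (hx : S4 H x) (hy : S4 H y) (i j k l m : ℤ) :
    let N := 4 * (i * i + j * j + k * k + l * l + m * m) + 2 * (i * j * H.ip u v +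
      i * k * H.ip u w + i * l * H.ip u x + i * m * H.ip u y + j * k * H.ip v w +
      j * l * H.ip v x + j * m * H.ip v y + k * l * H.ip w x + k * m * H.ip w y +
      l * m * H.ip x y)
    N ≠ 2 ∧ N ≠ 14 ∧ 0 ≤ N := by
  intro N
  set z := i • u + j • v + k • w + l • x + m • y with hz
  have hzH : H.IsHodge z := by
    refine H.isHodge_add (H.isHodge_add (H.isHodge_add (H.isHodge_add ?_ ?_) ?_) ?_) ?_
    · exact H.isHodge_smul _ hu.1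
    · exact H.isHodge_smul _ hv.1
    · exact H.isHodge_smul _ hw.1
    · exact H.isHodge_smul _ hx.1
    · exact H.isHodge_smul _ hy.1
  have hzh : H.ip z H.h = 0 := by
    rw [hz]
    simp only [ip_add_left, ip_smul_left, hu.2.1, hv.2.1, hw.2.1, hx.2.1, hy.2.1]
    ring
  have hzN : H.ip z z = N := by
    rw [hz]
    simp only [ip_add_left, ip_add_right, ip_smul_left, ip_smul_right, hu.2.2, hv.2.2, hw.2.2,
      hx.2.2, hy.2.2, hH.comm v u, hH.comm w u, hH.comm w v, hH.comm x u, hH.comm x v,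
      hH.comm x w, hH.comm y u, hH.comm y v, hH.comm y w, hH.comm y x]
    ring
  refine ⟨?_, ?_, ?_⟩
  · rw [← hzN]; exact hH.disc_six z hzH hzh
  · rw [← hzN]; exact hN z hzH hzh
  · rw [← hzN]; exact hH.nonneg hzH

/-- the square of a combination of four classes, as a function of the products -/
def N4 (k : ℤ × ℤ × ℤ × ℤ) (a b c d e f : ℤ) : ℤ :=
  4 * (k.1 * k.1 + k.2.1 * k.2.1 + k.2.2.1 * k.2.2.1 + k.2.2.2 * k.2.2.2) +
    2 * (k.1 * k.2.1 * a + k.1 * k.2.2.1 * b + k.1 * k.2.2.2 * c + k.2.1 * k.2.2.1 * d +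
      k.2.1 * k.2.2.2 * e + k.2.2.1 * k.2.2.2 * f)

/-- an allowed square -/
def okN (n : ℤ) : Bool := decide (n ≠ 2) && decide (n ≠ 14) && decide (0 ≤ n)

theorem okN4 (hH : H.IsCohomology) (hN : No14 H) {u v w x : Fin 23 → ℤ}
    (hu : S4 H u) (hv : S4 H v) (hw : S4 H w) (hx : S4 H x) (k : ℤ × ℤ × ℤ × ℤ) :
    okN (N4 k (H.ip u v) (H.ip u w) (H.ip u x) (H.ip v w) (H.ip v x) (H.ip w x)) = true := by
  have h := nrm5 hH hN hu hv hw hx hx k.1 k.2.1 k.2.2.1 k.2.2.2 0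
  simp only [okN, N4, Bool.and_eq_true]
  simp only [mul_zero, zero_mul, add_zero] at h
  exact ⟨⟨decide_eq_true h.1, decide_eq_true h.2.1⟩, decide_eq_true h.2.2⟩

/-- two classes are equal up to sign, or their product is small -/
theorem range2 (hH : H.IsCohomology) {u v : Fin 23 → ℤ} (hu : S4 H u) (hv : S4 H v) :
    u = v ∨ u = -v ∨ (-2 ≤ H.ip u v ∧ H.ip u v ≤ 2) := by
  by_cases h1 : u = v
  · exact Or.inl h1
  by_cases h2 : u = -v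
  · exact Or.inr (Or.inl h2)
  right; right
  have hm := hH.pos (u - v) (H.isHodge_sub hu.1 hv.1) (sub_ne_zero.2 h1)
  have hp := hH.pos (u + v) (H.isHodge_add hu.1 hv.1) (fun h => h2 (eq_neg_of_add_eq_zero_left h))
  have em : H.ip (u - v) (u - v) = 8 - 2 * H.ip u v := by
    simp only [ip_sub_left, ip_sub_right, hu.2.2, hv.2.2, hH.comm v u]; ring
  have ep : H.ip (u + v) (u + v) = 8 + 2 * H.ip u v := by
    simp only [ip_add_left, ip_add_right, hu.2.2, hv.2.2, hH.comm v u]; ring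
  have hm6 := hH.disc_six (u - v) (H.isHodge_sub hu.1 hv.1)
    (by rw [ip_sub_left, hu.2.1, hv.2.1, sub_zero])
  have hp6 := hH.disc_six (u + v) (H.isHodge_add hu.1 hv.1)
    (by rw [ip_add_left, hu.2.1, hv.2.1, add_zero])
  rw [em] at hm hm6
  rw [ep] at hp hp6
  constructor <;> omega

/-- the values -/
theorem range4 (hH : H.IsCohomology) {u v : Fin 23 → ℤ} (hu : S4 H u) (hv : S4 H v) :
    H.ip u v = 4 ∨ H.ip u v = -4 ∨ (-2 ≤ H.ip u v ∧ H.ip u v ≤ 2) := by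
  rcases range2 hH hu hv with h | h | h
  · left; rw [h, hv.2.2]
  · right; left; rw [h, ip_neg_left, hv.2.2]
  · right; right; exact h

/-- small integers -/
def rg : List ℤ := [-2, -1, 0, 1, 2]

theorem mem_rg {a : ℤ} (h : -2 ≤ a ∧ a ≤ 2) : a ∈ rg := by
  obtain ⟨h1, h2⟩ := h
  interval_cases a <;> decide

/-- witnesses -/
def W1 : List (ℤ × ℤ × ℤ × ℤ) :=
  [(1, -1, 0, -1), (1, 0, -1, -1), (1, 1, 1, -1), (1, 1, 1, 1), (0, 1, -1, -1), (0, 1, -1, 1),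
   (1, 0, 1, -1), (1, 0, 1, 1), (1, -1, 0, -2), (1, -1, 0, 2), (0, 1, 1, -1), (0, 1, 1, 1),
   (1, 1, 2, -2), (1, 1, 2, 2), (1, 1, 0, -1), (1, 1, 0, 1), (1, -1, 1, -1), (1, -1, 1, 1),
   (1, 0, -1, -2), (1, 0, -1, 2), (1, 1, 2, -1), (1, 1, 2, 1)]

theorem t1 : ∀ a ∈ rg, ∀ b ∈ rg, ∀ c ∈ rg,
    (W1.all fun k => okN (N4 k (-1) (-1) a 0 b c)) = true →
    a = 0 ∧ (b = 1 ∨ b = -1) ∧ (c = 1 ∨ c = -1) := by
  decide +kernel

/-- witnesses -/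
def W3 : List (ℤ × ℤ × ℤ) :=
  [(1, -1, -1), (1, 1, -1), (1, -1, -2), (1, 1, -2), (1, -1, 2), (1, 1, 2)]

/-- triples with an odd product -/
theorem t3 : ∀ a ∈ [(-1 : ℤ), 1], ∀ b ∈ rg, ∀ c ∈ rg,
    (W3.all fun k => okN (N4 (k.1, k.2.1, k.2.2, 0) a b 0 c 0 0)) = true →
    (b = 0 → (c = 1 ∨ c = -1)) ∧ (b ≠ 0 → c ≠ 0 → (c - a * b) % 3 = 0) := by
  decide +kernel

/-- witnesses -/
def W2 : List (ℤ × ℤ × ℤ × ℤ) :=
  [(1, -1, -1, 0), (1, 1, 0, -1), (1, -1, -1, -1), (1, 1, -1, -1), (1, -1, 0, -1), (1, -1, 1, 0)]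

theorem t2 : ∀ a ∈ [(-1 : ℤ), 1], ∀ b ∈ [(-2 : ℤ), 2], ∀ c ∈ [(-2 : ℤ), 2], ∀ d ∈ [(-2 : ℤ), 2],
    ∀ e ∈ [(-2 : ℤ), 2], (W2.all fun k => okN (N4 k a b c d e 0)) = false := by
  decide +kernel

/-- witnesses -/
def W4 : List (ℤ × ℤ × ℤ × ℤ) :=
  [(1, 0, -1, -1), (0, 1, -1, 1), (1, -1, 0, 1), (1, 1, 1, 0), (1, -1, -1, -1), (1, 1, -1, -1),
   (1, 0, -1, 1), (1, 0, -1, 2), (2, 0, -1, -1), (2, 0, -1, 1), (2, 0, 1, -1), (1, 0, 2, -1),
   (1, -1, -1, 1), (1, 1, -1, 1), (1, 0, -1, -2), (1, 0, -2, -1), (0, 1, -1, -1), (1, -1, 2, 0),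
   (1, 0, -2, 1), (1, 1, 2, 0), (1, -1, -1, 0), (1, -1, 0, -1), (1, -1, -2, 0), (1, -1, 0, -2),
   (1, -1, 0, 2), (1, 1, -2, 0), (1, 1, 0, -2), (1, 1, 0, 2)]

theorem t4 : ∀ a ∈ [(-1 : ℤ), 1], ∀ b ∈ [(-2 : ℤ), -1, 1, 2], ∀ c ∈ [(-2 : ℤ), -1, 1, 2],
    ∀ d ∈ [(-2 : ℤ), -1, 1, 2], ∀ e ∈ [(-2 : ℤ), -1, 1, 2], ∀ f ∈ [(-2 : ℤ), -1, 1, 2],
    (W4.all fun k => okN (N4 k a b c d e f)) = true → (f - b * c) % 3 = 0 := by
  decide +kernel

end Pool.Agent.Helper36K9.CF
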