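import Pool.Agent.Helper36K9.CF.Scroll

/-!
# The configurations of primitive classes with the square `4`
-/

set_option autoImplicit false

namespace Pool.Agent.Helper36K9.CF

open Pool.Agent.Y95.Q Pool.Agent.Y95.Q.H4

variable {X : CubicFourfold} {H : H4 X}

theorem odd_range (hH : H.IsCohomology) {u v : Fin 23 → ℤ} (hu : S4 H u) (hv : S4 H v)
    (h : Odd (H.ip u v)) : H.ip u v ∈ [(-1 : ℤ), 1] := by
  obtain ⟨c, hc⟩ := h
  rcases range4 hH hu hv with h | h | h
  · omega
  · omega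
  · have : H.ip u v = -1 ∨ H.ip u v = 1 := by omega
    rcases this with h | h <;> rw [h] <;> decide

/-- triples with an odd product -/
theorem triple (hH : H.IsCohomology) (hN : No14 H) {u v w : Fin 23 → ℤ}
    (hu : S4 H u) (hv : S4 H v) (hw : S4 H w) (ho : Odd (H.ip u v)) :
    (H.ip u w = 0 → Odd (H.ip v w)) ∧
      (H.ip u w ≠ 0 → H.ip v w ≠ 0 → (H.ip v w - H.ip u v * H.ip u w) % 3 = 0) := by
  have ha := odd_range hH hu hv ho
  rcases range2 hH hu hw with h | h | h
  · subst h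
    refine ⟨fun h => ?_, fun _ _ => ?_⟩
    · rw [hu.2.2] at h; norm_num at h
    · rw [hu.2.2, hH.comm v u]; omega
  · have h' : w = -u := by rw [h, neg_neg]
    subst h'
    refine ⟨fun h => ?_, fun _ _ => ?_⟩
    · rw [ip_neg_right, hu.2.2] at h; norm_num at h
    · rw [ip_neg_right, ip_neg_right, hu.2.2, hH.comm v u]; omega
  rcases range2 hH hv hw with h1 | h1 | h1
  · subst h1
    refine ⟨fun h => ?_, fun _ _ => ?_⟩
    · obtain ⟨c, hc⟩ := ho
      omega
    · have : H.ip u v = -1 ∨ H.ip u v = 1 := by simpa using ha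
      rcases this with h2 | h2 <;> rw [h2, hv.2.2] <;> norm_num
  · have h' : w = -v := by rw [h1, neg_neg]
    subst h'
    refine ⟨fun h => ?_, fun _ _ => ?_⟩
    · obtain ⟨c, hc⟩ := ho
      rw [ip_neg_right] at h
      omega
    · have : H.ip u v = -1 ∨ H.ip u v = 1 := by simpa using ha
      rw [ip_neg_right, ip_neg_right, hv.2.2]
      rcases this with h2 | h2 <;> rw [h2] <;> norm_num
  have hk := t3 _ ha _ (mem_rg h) _ (mem_rg h1) (by
    rw [List.all_eq_true]
    intro k _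
    have := okN4 hH hN hu hv hw hw (k.1, k.2.1, k.2.2, 0)
    simp only [okN, N4, mul_zero, zero_mul, add_zero] at this ⊢
    exact this)
  refine ⟨fun h0 => ?_, fun h0 h2 => hk.2 h0 h2⟩
  rcases hk.1 h0 with h2 | h2 <;> rw [h2]
  · exact odd_one
  · exact ⟨-1, by norm_num⟩

/-- the basic configuration -/
structure Conf (H : H4 X) (v u w : Fin 23 → ℤ) : Prop where
  hv : S4 H v
  hu : S4 H u
  hw : S4 H w
  vu : H.ip v u = -1
  vw : H.ip v w = -1
  uw : H.ip u w = 0

theorem exists_conf' (hH : H.IsCohomology) {v u w : Fin 23 → ℤ}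
    (hu : S4 H u) (hv : S4 H v) (hw : S4 H w) (h1 : Odd (H.ip v u)) (h2 : Odd (H.ip v w))
    (h0 : H.ip u w = 0) : ∃ v u w, Conf H v u w := by
  have a1 : H.ip v u = -1 ∨ H.ip v u = 1 := by simpa using odd_range hH hv hu h1
  have a2 : H.ip v w = -1 ∨ H.ip v w = 1 := by simpa using odd_range hH hv hw h2
  rcases a1 with a1 | a1 <;> rcases a2 with a2 | a2
  · exact ⟨v, u, w, hv, hu, hw, a1, a2, h0⟩
  · exact ⟨v, u, -w, hv, hu, hw.neg, a1, by rw [ip_neg_right, a2],
      by rw [ip_neg_right, h0, neg_zero]⟩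
  · exact ⟨v, -u, w, hv, hu.neg, hw, by rw [ip_neg_right, a1], a2,
      by rw [ip_neg_left, h0, neg_zero]⟩
  · exact ⟨v, -u, -w, hv, hu.neg, hw.neg, by rw [ip_neg_right, a1],
      by rw [ip_neg_right, a2], by rw [ip_neg_left, ip_neg_right, h0, neg_zero, neg_zero]⟩

theorem exists_conf (hH : H.IsCohomology) (hN : No14 H) {a b c d : Fin 23 → ℤ}
    (ha : S4 H a) (hb : S4 H b) (hc : S4 H c) (hd : S4 H d) (ho : Odd (H.ip a b))
    (h0 : H.ip c d = 0) : ∃ v u w, Conf H v u w := by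
  -- an odd product and a product `0` with a common class
  have key : ∀ {p q r : Fin 23 → ℤ}, S4 H p → S4 H q → S4 H r → Odd (H.ip p q) →
      H.ip p r = 0 → ∃ v u w, Conf H v u w := by
    intro p q r hp hq hr h1 h2
    exact exists_conf' hH hp hq hr (by rwa [hH.comm]) ((triple hH hN hp hq hr h1).1 h2) h2
  have h0' : H.ip d c = 0 := by rw [hH.comm, h0]
  have ho' : Odd (H.ip b a) := by rwa [hH.comm]
  by_cases e1 : Odd (H.ip a c)
  · exact key hc ha hd (by rwa [hH.comm]) h0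
  by_cases e2 : Odd (H.ip a d)
  · exact key hd ha hc (by rwa [hH.comm]) h0'
  by_cases e3 : Odd (H.ip b c)
  · exact key hc hb hd (by rwa [hH.comm]) h0
  by_cases e4 : Odd (H.ip b d)
  · exact key hd hb hc (by rwa [hH.comm]) h0'
  by_cases f1 : H.ip a c = 0
  · exact key ha hb hc ho f1
  by_cases f2 : H.ip a d = 0
  · exact key ha hb hd ho f2
  by_cases f3 : H.ip b c = 0
  · exact key hb ha hc ho' f3
  by_cases f4 : H.ip b d = 0
  · exact key hb ha hd ho' f4
  exfalso
  have val : ∀ {p q r : Fin 23 → ℤ}, S4 H p → S4 H q → S4 H r → ¬ Odd (H.ip p q) →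
      H.ip p q ≠ 0 → H.ip q r = 0 → H.ip p r ≠ 0 → H.ip p q ∈ [(-2 : ℤ), 2] := by
    intro p q r hp hq hr g1 g2 g3 g4
    rw [Int.not_odd_iff_even] at g1
    obtain ⟨t, ht⟩ := g1
    rcases range2 hH hp hq with h | h | h
    · rw [h] at g4; exact absurd g3 g4
    · rw [h, ip_neg_left, g3, neg_zero] at g4; exact absurd rfl g4
    · have : H.ip p q = -2 ∨ H.ip p q = 2 := by omega
      rcases this with h | h <;> rw [h] <;> decide
  have hk := t2 _ (odd_range hH ha hb ho) _ (val ha hc hd e1 f1 h0 f2)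
    _ (val ha hd hc e2 f2 h0' f1) _ (val hb hc hd e3 f3 h0 f4) _ (val hb hd hc e4 f4 h0' f3)
  rw [List.all_eq_false] at hk
  obtain ⟨k, -, hk⟩ := hk
  have := okN4 hH hN ha hb hc hd k
  rw [h0] at this
  exact hk this

/-- a further class -/
theorem Conf.further (hH : H.IsCohomology) (hN : No14 H) {v u w x : Fin 23 → ℤ}
    (h : Conf H v u w) (hx : S4 H x) (n1 : x ≠ v) (n2 : x ≠ -v) (n3 : x ≠ u) (n4 : x ≠ -u)
    (n5 : x ≠ w) (n6 : x ≠ -w) :
    H.ip v x = 0 ∧ (H.ip u x = 1 ∨ H.ip u x = -1) ∧ (H.ip w x = 1 ∨ H.ip w x = -1) := by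
  have r : ∀ {p : Fin 23 → ℤ}, S4 H p → x ≠ p → x ≠ -p → H.ip p x ∈ rg := by
    intro p hp g1 g2
    rcases range2 hH hp hx with h | h | h
    · exact absurd h.symm g1
    · exact absurd (by rw [h, neg_neg]) g2
    · exact mem_rg h
  refine t1 _ (r h.hv n1 n2) _ (r h.hu n3 n4) _ (r h.hw n5 n6) ?_
  rw [List.all_eq_true]
  intro k _
  have := okN4 hH hN h.hv h.hu h.hw hx k
  rwa [h.vu, h.vw, h.uw] at this

/-- there are not two further classes -/
theorem Conf.not_two (hH : H.IsCohomology) (hN : No14 H) {v u w x y : Fin 23 → ℤ}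
    (h : Conf H v u w) (hx : S4 H x) (hy : S4 H y) (hxy : x ≠ y) (hxy' : x ≠ -y)
    (x1 : H.ip v x = 0 ∧ (H.ip u x = 1 ∨ H.ip u x = -1) ∧ (H.ip w x = 1 ∨ H.ip w x = -1))
    (y1 : H.ip v y = 0 ∧ (H.ip u y = 1 ∨ H.ip u y = -1) ∧ (H.ip w y = 1 ∨ H.ip w y = -1)) :
    False := by
  have hr : -2 ≤ H.ip x y ∧ H.ip x y ≤ 2 := by
    rcases range2 hH hx hy with h | h | h
    · exact absurd h hxy
    · exact absurd h hxy'
    · exact h
  have k1 := nrm5 hH hN h.hv h.hu h.hw hx hy 1 0 0 (-1) (-1)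
  have k2 := nrm5 hH hN h.hv h.hu h.hw hx hy 1 0 0 (-1) 1
  have k3 := nrm5 hH hN h.hv h.hu h.hw hx hy 1 0 1 (-1) (-1)
  have k4 := nrm5 hH hN h.hv h.hu h.hw hx hy 1 0 1 (-1) 1
  have k5 := nrm5 hH hN h.hv h.hu h.hw hx hy 1 0 1 1 (-1)
  have k6 := nrm5 hH hN h.hv h.hu h.hw hx hy 1 0 1 1 1
  simp only [h.vu, h.vw, h.uw, x1.1, y1.1] at k1 k2 k3 k4 k5 k6
  obtain ⟨-, xu, xw⟩ := x1
  obtain ⟨-, yu, yw⟩ := y1
  generalize H.ip x y = s at *
  rcases xu with xu | xu <;> rcases xw with xw | xw <;> rcases yu with yu | yu <;>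
    rcases yw with yw | yw <;> simp only [xu, xw, yu, yw] at k1 k2 k3 k4 k5 k6 <;> omega

/-- without a class of square `14`, a configuration has at most eight classes -/
theorem Conf.subset (hH : H.IsCohomology) (hN : No14 H) {v u w : Fin 23 → ℤ}
    (h : Conf H v u w) : ∃ x, ∀ y, S4 H y →
      y ∈ ({v, -v, u, -u, w, -w, x, -x} : Finset (Fin 23 → ℤ)) := by
  classical
  by_cases hex : ∃ x, S4 H x ∧ x ≠ v ∧ x ≠ -v ∧ x ≠ u ∧ x ≠ -u ∧ x ≠ w ∧ x ≠ -w
  · obtain ⟨x, hx, n1, n2, n3, n4, n5, n6⟩ := hex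
    refine ⟨x, fun y hy => ?_⟩
    by_contra hcon
    simp only [Finset.mem_insert, Finset.mem_singleton, not_or] at hcon
    obtain ⟨m1, m2, m3, m4, m5, m6, m7, m8⟩ := hcon
    exact h.not_two hH hN hx hy (fun e => m7 e.symm) (fun e => m8 (by rw [e, neg_neg]))
      (h.further hH hN hx n1 n2 n3 n4 n5 n6) (h.further hH hN hy m1 m2 m3 m4 m5 m6)
  · push Not at hex
    refine ⟨v, fun y hy => ?_⟩
    by_contra hcon
    simp only [Finset.mem_insert, Finset.mem_singleton, not_or] at hcon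
    obtain ⟨m1, m2, m3, m4, m5, m6, -, -⟩ := hcon
    exact m6 (hex y hy m1 m2 m3 m4 m5)

/-- without a class of square `14`, a configuration has at most eight classes -/
theorem Conf.card (hH : H.IsCohomology) (hN : No14 H) {v u w : Fin 23 → ℤ}
    (h : Conf H v u w) : Set.encard {z | S4 H z} ≤ 8 := by
  classical
  obtain ⟨x, hx⟩ := h.subset hH hN
  have hsub : {z | S4 H z} ⊆ ((({v, -v, u, -u, w, -w, x, -x} : Finset (Fin 23 → ℤ))) :
      Set (Fin 23 → ℤ)) := fun y hy => hx y hy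
  refine (Set.encard_le_encard hsub).trans ?_
  rw [Set.encard_coe_eq_coe_finsetCard]
  have : ({v, -v, u, -u, w, -w, x, -x} : Finset (Fin 23 → ℤ)).card ≤ 8 :=
    (Finset.card_insert_le _ _).trans (Nat.succ_le_succ
      ((Finset.card_insert_le _ _).trans (Nat.succ_le_succ Finset.card_le_six)))
  exact_mod_cast this

/-- without a class of square `14`, a configuration spans a group of rank at most `4` -/
theorem Conf.rank (hH : H.IsCohomology) (hN : No14 H) {v u w : Fin 23 → ℤ}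
    (h : Conf H v u w)
    (hG : ∀ z, H.IsHodge z → z ∈ Submodule.span ℤ (insert H.h {z | S4 H z})) : H.rank ≤ 5 := by
  classical
  obtain ⟨x, hx⟩ := h.subset hH hN
  set F : Finset (Fin 23 → ℤ) := {H.h, v, u, w, x} with hF
  have hFm : ∀ z ∈ F, z ∈ Submodule.span ℤ (F : Set (Fin 23 → ℤ)) := fun z hz =>
    Submodule.subset_span hz
  have hle : Submodule.span ℤ {z | H.IsHodge z} ≤ Submodule.span ℤ (F : Set (Fin 23 → ℤ)) := by
    rw [Submodule.span_le]
    intro z hz
    refine (Submodule.span_le.2 ?_) (hG z hz)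
    intro y hy
    rcases hy with rfl | hy
    · exact hFm _ (by simp [hF])
    · have h8 := hx y hy
      simp only [Finset.mem_insert, Finset.mem_singleton] at h8
      rcases h8 with rfl | rfl | rfl | rfl | rfl | rfl | rfl | rfl
      · exact hFm _ (by simp [hF])
      · exact Submodule.neg_mem _ (hFm _ (by simp [hF]))
      · exact hFm _ (by simp [hF])
      · exact Submodule.neg_mem _ (hFm _ (by simp [hF]))
      · exact hFm _ (by simp [hF])
      · exact Submodule.neg_mem _ (hFm _ (by simp [hF]))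
      · exact hFm _ (by simp [hF])
      · exact Submodule.neg_mem _ (hFm _ (by simp [hF]))
  refine (Submodule.finrank_mono hle).trans ?_
  refine (finrank_span_finset_le_card F).trans ?_
  exact Finset.card_le_five

/-- the products modulo `3` -/
theorem mod_three (hH : H.IsCohomology) (hN : No14 H) {u v x y : Fin 23 → ℤ}
    (hu : S4 H u) (hv : S4 H v) (hx : S4 H x) (hy : S4 H y) (ho : Odd (H.ip u v))
    (hz : ∀ p q : Fin 23 → ℤ, S4 H p → S4 H q → H.ip p q ≠ 0) :
    (H.ip x y - H.ip u x * H.ip u y) % 3 = 0 := by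
  have sq : ∀ {p q : Fin 23 → ℤ}, S4 H p → S4 H q → (H.ip p q * H.ip p q) % 3 = 1 := by
    intro p q hp hq
    have h0 := hz p q hp hq
    rcases range4 hH hp hq with h | h | ⟨h, h'⟩
    · rw [h]; norm_num
    · rw [h]; norm_num
    · generalize H.ip p q = s at *
      interval_cases s <;> simp_all
  rcases range2 hH hx hy with h | h | h
  · subst h
    have := sq hu hx
    rw [hx.2.2]
    omega
  · subst h
    have := sq hu hy
    rw [ip_neg_left, ip_neg_right, hy.2.2]
    have h2 : -H.ip u y * H.ip u y = -(H.ip u y * H.ip u y) := by ring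
    rw [h2]
    omega
  rcases range2 hH hu hx with h1 | h1 | h1
  · subst h1
    rw [hu.2.2]
    omega
  · have h1' : x = -u := by rw [h1, neg_neg]
    subst h1'
    rw [ip_neg_left, ip_neg_right, hu.2.2]
    omega
  rcases range2 hH hu hy with h2 | h2 | h2
  · subst h2
    rw [hu.2.2, hH.comm x u]
    omega
  · have h2' : y = -u := by rw [h2, neg_neg]
    subst h2'
    rw [ip_neg_right, ip_neg_right, hu.2.2, hH.comm x u]
    omega
  rcases range2 hH hv hx with h3 | h3 | h3
  · subst h3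
    exact (triple hH hN hu hv hy ho).2 (hz _ _ hu hy) (hz _ _ hv hy)
  · have h3' : x = -v := by rw [h3, neg_neg]
    subst h3'
    have := (triple hH hN hu hv hy ho).2 (hz _ _ hu hy) (hz _ _ hv hy)
    rw [ip_neg_left, ip_neg_right]
    have e : -H.ip v y - -H.ip u v * H.ip u y = -(H.ip v y - H.ip u v * H.ip u y) := by ring
    rw [e]
    omega
  rcases range2 hH hv hy with h4 | h4 | h4
  · subst h4
    have := (triple hH hN hu hv hx ho).2 (hz _ _ hu hx) (hz _ _ hv hx)
    rw [hH.comm x v, mul_comm]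
    exact this
  · have h4' : y = -v := by rw [h4, neg_neg]
    subst h4'
    have := (triple hH hN hu hv hx ho).2 (hz _ _ hu hx) (hz _ _ hv hx)
    rw [ip_neg_right, ip_neg_right, hH.comm x v]
    have e : -H.ip v x - H.ip u x * -H.ip u v = -(H.ip v x - H.ip u v * H.ip u x) := by ring
    rw [e]
    omega
  have mem : ∀ {p q : Fin 23 → ℤ}, S4 H p → S4 H q → (-2 ≤ H.ip p q ∧ H.ip p q ≤ 2) →
      H.ip p q ∈ [(-2 : ℤ), -1, 1, 2] := by
    intro p q hp hq hr
    have h0 := hz p q hp hq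
    obtain ⟨h5, h6⟩ := hr
    generalize H.ip p q = s at *
    interval_cases s <;> simp_all
  refine t4 _ (odd_range hH hu hv ho) _ (mem hu hx h1) _ (mem hu hy h2) _ (mem hv hx h3)
    _ (mem hv hy h4) _ (mem hx hy h) ?_
  rw [List.all_eq_true]
  intro k _
  exact okN4 hH hN hu hv hx hy k

end Pool.Agent.Helper36K9.CF
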