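import Pool.Agent.Helper36K9.CF.Scroll2

/-!
# Cubic fourfolds with many classes of cubic scrolls
-/

set_option autoImplicit false

namespace Pool.Agent.Helper36K9.CF

open Pool.Agent.Y95.Q Pool.Agent.Y95.Q.H4

variable {X : CubicFourfold} {H : H4 X}

/-- the numerical classes of cubic scrolls -/
def IsScr (H : H4 X) (T : Fin 23 → ℤ) : Prop := H.IsHodge T ∧ H.ip T H.h = 3 ∧ H.ip T T = 7

theorem IsScr.s4 (hH : H.IsCohomology) {T : Fin 23 → ℤ} (hT : IsScr H T) : S4 H (T - H.h) := by
  refine ⟨H.isHodge_sub hT.1 hH.h_hodge, ?_, ?_⟩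
  · rw [ip_sub_left, hT.2.1, hH.h_self]; norm_num
  · simp only [ip_sub_left, ip_sub_right, hT.2.1, hT.2.2, hH.comm H.h T, hH.h_self]
    norm_num

theorem S4.scr (hH : H.IsCohomology) {u : Fin 23 → ℤ} (hu : S4 H u) : IsScr H (u + H.h) := by
  refine ⟨H.isHodge_add hu.1 hH.h_hodge, ?_, ?_⟩
  · rw [ip_add_left, hu.2.1, hH.h_self]; norm_num
  · simp only [ip_add_left, ip_add_right, hu.2.1, hu.2.2, hH.comm H.h u, hH.h_self]
    norm_num

theorem scr_prod (hH : H.IsCohomology) {T T' : Fin 23 → ℤ} (hT : IsScr H T) (hT' : IsScr H T') :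
    H.ip (T - H.h) (T' - H.h) = H.ip T T' - 3 := by
  simp only [ip_sub_left, ip_sub_right, hT.2.1, hH.comm H.h T', hT'.2.1, hH.h_self]
  ring

theorem scr_encard (hH : H.IsCohomology) :
    Set.encard {T | IsScr H T} = Set.encard {u | S4 H u} := by
  have : {T | IsScr H T} = (fun u => u + H.h) '' {u | S4 H u} := by
    ext T
    constructor
    · intro hT
      exact ⟨T - H.h, hT.s4 hH, by simp⟩
    · rintro ⟨u, hu, rfl⟩
      exact hu.scr hH
  rw [this]
  exact (add_left_injective H.h).encard_image _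

theorem No14_or (hH : H.IsCohomology) : No14 H ∨ InDiv H 42 := by
  by_cases h : No14 H
  · exact Or.inl h
  · right
    unfold No14 at h
    push Not at h
    obtain ⟨z, hz, hzh, h14⟩ := h
    refine inDiv_of hH hz ?_ (by norm_num)
    rw [disc, hH.comm H.h z, hzh, h14]; norm_num

/-- **Many cubic scrolls.** -/
theorem scr_main (hH : H.IsCohomology)
    (h9 : 9 ≤ Set.encard {T | IsScr H T} ∨ (6 ≤ H.rank ∧
      ∀ v, H.IsHodge v → v ∈ Submodule.span ℤ (insert H.h {T | IsScr H T})))
    (he : ∃ T T', IsScr H T ∧ IsScr H T' ∧ Even (H.ip T T'))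
    (h3 : ∃ T T', IsScr H T ∧ IsScr H T' ∧ H.ip T T' = 3) : InDiv H 42 := by
  rcases No14_or hH with hN | h
  swap
  · exact h
  exfalso
  obtain ⟨a, b, ha, hb, hab⟩ := he
  obtain ⟨c, d, hc, hd, hcd⟩ := h3
  have ho : Odd (H.ip (a - H.h) (b - H.h)) := by
    rw [scr_prod hH ha hb]
    exact hab.sub_odd (by decide)
  have h0 : H.ip (c - H.h) (d - H.h) = 0 := by
    rw [scr_prod hH hc hd, hcd]; norm_num
  obtain ⟨v, u, w, hconf⟩ := exists_conf hH hN (ha.s4 hH) (hb.s4 hH) (hc.s4 hH) (hd.s4 hH) ho h0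
  rcases h9 with h9 | ⟨h6, hG⟩
  · rw [scr_encard hH] at h9
    have h8 := hconf.card hH hN
    have h98 : (9 : ℕ∞) ≤ 8 := h9.trans h8
    exact absurd h98 (by decide)
  · have h5 := hconf.rank hH hN (fun z hz => by
      refine (Submodule.span_le.2 ?_) (hG z hz)
      intro y hy
      rcases hy with rfl | hy
      · exact Submodule.subset_span (Set.mem_insert _ _)
      · have h1 : (y - H.h) ∈ Submodule.span ℤ (insert H.h {z | S4 H z}) :=
          Submodule.subset_span (Set.mem_insert_of_mem _ (hy.s4 hH))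
        have h2 : H.h ∈ Submodule.span ℤ (insert H.h {z | S4 H z}) :=
          Submodule.subset_span (Set.mem_insert _ _)
        have h3 := Submodule.add_mem _ h1 h2
        rwa [sub_add_cancel] at h3)
    omega

/-- a positive number all of whose prime factors are `1` modulo `3` -/
theorem mod_three_of_primes (m : ℕ) (hm : m ≠ 0) (h : ∀ p : ℕ, p.Prime → p ∣ m → p % 3 = 1) :
    m % 3 = 1 := by
  induction m using induction_on_primes with
  | zero => exact absurd rfl hm
  | one => rfl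
  | prime_mul p a hp ih =>
    have h1 := h p hp (dvd_mul_right _ _)
    have ha : a ≠ 0 := by
      rintro rfl
      exact hm (mul_zero _)
    have h2 := ih ha fun q hq hqa => h q hq (hqa.mul_left _)
    rw [Nat.mul_mod, h1, h2]

/-- an admissible number which is divisible by `3` -/
theorem adm_three {d n : ℤ} (hA : Admissible d) (he : Even d) (hn : d = 3 * n) : n % 3 = 2 := by
  obtain ⟨h6, h4, h9, hp⟩ := hA
  obtain ⟨e, he⟩ := he
  -- `n = 2 m`, `m` odd
  obtain ⟨m, hm⟩ : ∃ m : ℕ, n = 2 * (m : ℤ) := by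
    refine ⟨(n / 2).toNat, ?_⟩
    omega
  have hm0 : m ≠ 0 := by
    rintro rfl
    omega
  have h1 : m % 3 = 1 := by
    refine mod_three_of_primes m hm0 fun p hpp hpm => ?_
    have hpm' : (p : ℤ) ∣ (m : ℤ) := by exact_mod_cast hpm
    obtain ⟨s, hs⟩ := hpm'
    have hpd : (p : ℤ) ∣ d := ⟨6 * s, by rw [hn, hm, hs]; ring⟩
    have hp2 : p ≠ 2 := by
      rintro rfl
      apply h4
      exact ⟨3 * s, by rw [hn, hm, hs]; push_cast; ring⟩
    have hp3 : p ≠ 3 := by
      rintro rfl
      apply h9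
      exact ⟨2 * s, by rw [hn, hm, hs]; push_cast; ring⟩
    have h3 := hp p hpp hp2 hpd
    have h30 : p % 3 ≠ 0 := by
      intro h0
      have : 3 ∣ p := Nat.dvd_of_mod_eq_zero h0
      exact hp3 ((Nat.prime_dvd_prime_iff_eq Nat.prime_three hpp).1 this).symm
    omega
  omega

/-- **Generators which are cubic scrolls**: an associated K3 surface gives pairs of scrolls with
an even product and with the product `3`. -/
theorem scr_gen (hH : H.IsCohomology)
    (hG : ∀ v, H.IsHodge v → v ∈ Submodule.span ℤ (insert H.h {T | IsScr H T}))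
    (hN : No14 H) {v : Fin 23 → ℤ} (hv : H.IsHodge v) (hA : Admissible (H.disc v)) :
    (∃ T T', IsScr H T ∧ IsScr H T' ∧ Even (H.ip T T')) ∧
      ∃ T T', IsScr H T ∧ IsScr H T' ∧ H.ip T T' = 3 := by
  have hodd : ∃ T T', IsScr H T ∧ IsScr H T' ∧ Even (H.ip T T') := by
    by_contra hcon
    push Not at hcon
    apply hA.2.1
    refine span_even hH (G := {T | IsScr H T}) ?_ ?_ (hG v hv)
    · intro x hx y hy
      have h1 := hcon x y hx hy
      rw [Int.not_even_iff_odd] at h1
      obtain ⟨c, hc⟩ := h1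
      rw [bb, hH.comm H.h x, hH.comm H.h y, hx.2.1, hy.2.1, hc]
      exact ⟨3 * c - 3, by ring⟩
    · intro x hx
      rw [disc, hH.comm H.h x, hx.2.1, hx.2.2]
      norm_num
  refine ⟨hodd, ?_⟩
  by_contra hcon
  push Not at hcon
  obtain ⟨T0, T1, h0, h1, he⟩ := hodd
  set u := T0 - H.h with hu
  set w := T1 - H.h with hw
  have hu4 : S4 H u := h0.s4 hH
  have hw4 : S4 H w := h1.s4 hH
  have ho : Odd (H.ip u w) := by
    rw [hu, hw, scr_prod hH h0 h1]
    exact he.sub_odd (by decide)
  have hz : ∀ p q : Fin 23 → ℤ, S4 H p → S4 H q → H.ip p q ≠ 0 := by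
    intro p q hp hq h
    apply hcon _ _ (hp.scr hH) (hq.scr hH)
    have h2 := scr_prod hH (hp.scr hH) (hq.scr hH)
    rw [add_sub_cancel_right, add_sub_cancel_right, h] at h2
    linarith
  have hgen : ∀ x, IsScr H x → ∀ y, IsScr H y →
      (bb H x y - 3 * (H.ip u x * H.ip u y)) % 9 = 0 := by
    intro x hx y hy
    have h2 := mod_three hH hN hu4 hw4 (hx.s4 hH) (hy.s4 hH) ho hz
    have h3 : ∀ z, H.ip u (z - H.h) = H.ip u z := by
      intro z
      rw [ip_sub_right, hu4.2.1, sub_zero]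
    rw [h3, h3, scr_prod hH hx hy] at h2
    have h4 : bb H x y = 3 * (H.ip x y - 3) := by
      rw [bb, hH.comm H.h x, hH.comm H.h y, hx.2.1, hy.2.1]; ring
    rw [h4]
    generalize H.ip u x * H.ip u y = s at *
    omega
  have huh : H.ip u H.h = 0 := hu4.2.1
  have g1 : ∀ x ∈ Submodule.span ℤ (insert H.h {T | IsScr H T}), ∀ y, IsScr H y →
      (9 : ℤ) ∣ bb H x y - 3 * (H.ip u x * H.ip u y) := by
    intro x hx y hy
    induction hx using Submodule.span_induction with
    | mem x hx =>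
      rcases hx with rfl | hx
      · rw [bb_h hH, huh]; norm_num
      · exact Int.dvd_of_emod_eq_zero (hgen x hx y hy)
    | zero => rw [bb_zero_left, ip_zero_right]; norm_num
    | add a b _ _ ha hb =>
      rw [bb_add_left, ip_add_right]
      obtain ⟨s, hs⟩ := ha
      obtain ⟨t, ht⟩ := hb
      exact ⟨s + t, by linear_combination hs + ht⟩
    | smul n a _ ha =>
      rw [bb_smul_left, ip_smul_right]
      obtain ⟨s, hs⟩ := ha
      exact ⟨n * s, by linear_combination n * hs⟩
  have g2 : ∀ x ∈ Submodule.span ℤ (insert H.h {T | IsScr H T}),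
      ∀ y ∈ Submodule.span ℤ (insert H.h {T | IsScr H T}),
      (9 : ℤ) ∣ bb H x y - 3 * (H.ip u x * H.ip u y) := by
    intro x hx y hy
    induction hy using Submodule.span_induction with
    | mem y hy =>
      rcases hy with rfl | hy
      · rw [bb_comm hH, bb_h hH, huh]; norm_num
      · exact g1 x hx y hy
    | zero => rw [bb_zero_right, ip_zero_right]; norm_num
    | add a b _ _ ha hb =>
      rw [bb_add_right, ip_add_right]
      obtain ⟨s, hs⟩ := ha
      obtain ⟨t, ht⟩ := hb
      exact ⟨s + t, by linear_combination hs + ht⟩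
    | smul n a _ ha =>
      rw [bb_smul_right, ip_smul_right]
      obtain ⟨s, hs⟩ := ha
      exact ⟨n * s, by linear_combination n * hs⟩
  obtain ⟨t, ht⟩ := g2 v (hG v hv) v (hG v hv)
  rw [bb_self] at ht
  have hn : H.disc v = 3 * (H.ip u v * H.ip u v + 3 * t) := by linarith
  have h2 := adm_three hA (even_disc hH v) hn
  have h3 : (H.ip u v * H.ip u v) % 3 = 0 ∨ (H.ip u v * H.ip u v) % 3 = 1 := by
    have h4 : H.ip u v % 3 = 0 ∨ H.ip u v % 3 = 1 ∨ H.ip u v % 3 = 2 := by omega
    rcases h4 with h4 | h4 | h4 <;> simp [Int.mul_emod, h4]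
  generalize H.ip u v * H.ip u v = s at *
  omega

end Pool.Agent.Helper36K9.CF
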